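import Mathlib
import Pool.Agent.Y740.Z.Stm

set_option autoImplicit false
set_option linter.all false

/-! # Project ZF: the pigeonhole principle for multiplicative relations -/

namespace Pool.Agent.Y447.Z

open Polynomial Real NumberField Height Module Pool.Agent.Y740.Z

section

variable {K : Type} [Field K] {n : ℕ} (x : Fin n → K)

/-- the product of powers -/
def pw (b : Fin n → ℤ) : K := ∏ l, x l ^ b l

theorem pw_add (hx : ∀ l, x l ≠ 0) (a b : Fin n → ℤ) : pw x (a + b) = pw x a * pw x b := by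
  unfold pw
  rw [← Finset.prod_mul_distrib]
  exact Finset.prod_congr rfl fun l _ => zpow_add₀ (hx l) _ _

theorem pw_smul (m : ℤ) (b : Fin n → ℤ) : pw x (m • b) = pw x b ^ m := by
  unfold pw
  rw [← Finset.prod_zpow]
  refine Finset.prod_congr rfl fun l _ => ?_
  rw [Pi.smul_apply, smul_eq_mul, mul_comm, zpow_mul]

theorem pw_zero : pw x 0 = 1 := by
  unfold pw
  exact Finset.prod_eq_one fun l _ => by rw [Pi.zero_apply, zpow_zero]

theorem pw_ne (hx : ∀ l, x l ≠ 0) (b : Fin n → ℤ) : pw x b ≠ 0 :=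
  Finset.prod_ne_zero_iff.2 fun l _ => zpow_ne_zero _ (hx l)

theorem pw_sub_mul (hx : ∀ l, x l ≠ 0) (a b : Fin n → ℤ) : pw x (a - b) * pw x b = pw x a := by
  rw [← pw_add x hx, sub_add_cancel]

/-- the exponents of torsion elements -/
def tors (hx : ∀ l, x l ≠ 0) : Submodule ℤ (Fin n → ℤ) where
  carrier := {b | ∃ m : ℕ, 0 < m ∧ pw x b ^ m = 1}
  zero_mem' := ⟨1, one_pos, by rw [pw_zero, one_pow]⟩
  add_mem' := by
    rintro a b ⟨m, hm, h1⟩ ⟨m', hm', h2⟩
    refine ⟨m * m', Nat.mul_pos hm hm', ?_⟩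
    rw [pw_add x hx, mul_pow, pow_mul, h1, one_pow, one_mul, mul_comm m m', pow_mul, h2, one_pow]
  smul_mem' := by
    rintro c b ⟨m, hm, h⟩
    refine ⟨m, hm, ?_⟩
    rw [pw_smul, ← zpow_natCast, ← zpow_mul, mul_comm, zpow_mul, zpow_natCast, h, one_zpow]

theorem mem_tors (hx : ∀ l, x l ≠ 0) (b : Fin n → ℤ) :
    b ∈ tors x hx ↔ ∃ m : ℕ, 0 < m ∧ pw x b ^ m = 1 := Iff.rfl

theorem tors_sat (hx : ∀ l, x l ≠ 0) (r : ℤ) (hr : r ≠ 0) (b : Fin n → ℤ)
    (h : r • b ∈ tors x hx) : b ∈ tors x hx := by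
  rw [mem_tors] at h ⊢
  obtain ⟨m, hm, h⟩ := h
  refine ⟨(r * m).natAbs, Int.natAbs_pos.2 (mul_ne_zero hr (by exact_mod_cast hm.ne')), ?_⟩
  have h2 : pw x b ^ (r * m) = 1 := by rw [zpow_mul, zpow_natCast, ← pw_smul, h]
  rcases Int.natAbs_eq (r * m) with h3 | h3
  · rw [h3, zpow_natCast] at h2
    exact h2
  · rw [h3, zpow_neg, inv_eq_one, zpow_natCast] at h2
    exact h2

theorem tf (hx : ∀ l, x l ≠ 0) : Module.IsTorsionFree ℤ ((Fin n → ℤ) ⧸ tors x hx) where
  isSMulRegular := by
    intro r hr a b hab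
    have hr0 : r ≠ 0 := hr.ne_zero
    obtain ⟨v, hv⟩ := Submodule.Quotient.mk_surjective _ (a - b)
    have h1 : r • (a - b) = 0 := by
      rw [smul_sub, sub_eq_zero]
      exact hab
    rw [← hv, ← Submodule.Quotient.mk_smul, Submodule.Quotient.mk_eq_zero] at h1
    have h2 := tors_sat x hx r hr0 v h1
    rw [← Submodule.Quotient.mk_eq_zero, hv, sub_eq_zero] at h2
    exact h2

end

theorem t_PIG : S_PIG := by
  classical
  intro K _ _ n ρ x hx hu H lam hlam hH hlow M T k hM hk hkH hcard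
  obtain ⟨u, hu1, hu2⟩ := hu
  haveI := tf x hx
  haveI : NeZero k := ⟨hk.ne'⟩
  set Q := (Fin n → ℤ) ⧸ tors x hx with hQ
  set r := finrank ℤ Q with hr
  let β : Basis (Fin r) ℤ Q := Module.finBasis ℤ Q
  -- the rank
  have hrank : r ≤ n - ρ := by
    have h1 : finrank ℤ Q + finrank ℤ (tors x hx) = n := by
      have := (tors x hx).finrank_quotient_add_finrank
      rwa [Module.finrank_fin_fun] at this
    have h2 : ρ ≤ finrank ℤ (tors x hx) := by
      let w : Fin ρ → tors x hx := fun i => ⟨u i, ⟨1, one_pos, by rw [pow_one]; exact hu2 i⟩⟩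
      have hw : LinearIndependent ℤ w := by
        apply LinearIndependent.of_comp (tors x hx).subtype
        exact hu1
      have := hw.fintype_card_le_finrank
      rwa [Fintype.card_fin] at this
    omega
  -- coordinates modulo k
  let cr : (Fin n → ℤ) → (Fin r → ZMod k) := fun b i =>
    ((β.repr (Submodule.Quotient.mk b) i : ℤ) : ZMod k)
  have hcr : ∀ a b : Fin n → ℤ, cr a = cr b → ∃ c : Fin n → ℤ, a - b - (k : ℤ) • c ∈ tors x hx := by
    intro a b hab
    have h1 : ∀ i, ∃ e : ℤ, β.repr (Submodule.Quotient.mk a - Submodule.Quotient.mk b) i =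
        k * e := by
      intro i
      have h2 := congrFun hab i
      have h3 : ((β.repr (Submodule.Quotient.mk a - Submodule.Quotient.mk b) i : ℤ) : ZMod k) = 0 := by
        rw [map_sub, Finsupp.sub_apply, Int.cast_sub, sub_eq_zero]
        exact h2
      exact (ZMod.intCast_zmod_eq_zero_iff_dvd _ k).1 h3
    choose e he using h1
    obtain ⟨c, hc⟩ := Submodule.Quotient.mk_surjective (tors x hx) (∑ i, e i • β i)
    refine ⟨c, ?_⟩
    rw [← Submodule.Quotient.mk_eq_zero, Submodule.Quotient.mk_sub, Submodule.Quotient.mk_sub,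
      Submodule.Quotient.mk_smul, hc, sub_eq_zero]
    conv_lhs => rw [← β.sum_repr (Submodule.Quotient.mk a - Submodule.Quotient.mk b)]
    rw [Finset.smul_sum]
    refine Finset.sum_congr rfl fun i _ => ?_
    rw [he i, smul_smul]
  -- the box
  let bx : (Fin n → Fin (T + 1)) → (Fin n → ℤ) := fun a l => ((a l : ℕ) : ℤ)
  have hbx : ∀ a b : Fin n → Fin (T + 1), ∀ l, |bx a l - bx b l| ≤ T := by
    intro a b l
    have h1 := (a l).2
    have h2 := (b l).2
    show |((a l : ℕ) : ℤ) - ((b l : ℕ) : ℤ)| ≤ T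
    rw [abs_le]
    omega
  have hinj : Function.Injective bx := by
    intro a b hab
    funext l
    have : ((a l : ℕ) : ℤ) = ((b l : ℕ) : ℤ) := congrFun hab l
    apply Fin.ext
    exact_mod_cast this
  obtain ⟨y, hy⟩ := Fintype.exists_lt_card_fiber_of_mul_lt_card (fun a => cr (bx a)) (n := M) (by
    rw [Fintype.card_fun, Fintype.card_fun, ZMod.card, Fintype.card_fin, Fintype.card_fin,
      Fintype.card_fin, mul_comm]
    refine lt_of_le_of_lt (Nat.mul_le_mul_left M (Nat.pow_le_pow_right hk hrank)) hcard)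
  set S : Finset (Fin n → Fin (T + 1)) := Finset.univ.filter fun a => cr (bx a) = y with hS
  have hSne : S.Nonempty := Finset.card_pos.1 (by omega)
  obtain ⟨a0, ha0⟩ := hSne
  have hmem : ∀ a ∈ S, cr (bx a) = y := fun a ha => (Finset.mem_filter.1 ha).2
  -- differences are torsion
  have htor : ∀ a ∈ S, bx a - bx a0 ∈ tors x hx := by
    intro a ha
    obtain ⟨c, hc⟩ := hcr (bx a) (bx a0) ((hmem a ha).trans (hmem a0 ha0).symm)
    have hd : bx a - bx a0 = (k : ℤ) • c + (bx a - bx a0 - (k : ℤ) • c) := by abel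
    obtain ⟨m, hm, hm1⟩ := hc
    have hh : logHeight₁ (pw x (bx a - bx a0)) = k * logHeight₁ (pw x c) := by
      have h1 : pw x (bx a - bx a0) ^ m = (pw x c ^ k) ^ m := by
        conv_lhs => rw [hd]
        rw [pw_add x hx, mul_pow, hm1, mul_one, pw_smul, zpow_natCast]
      have h2 := congrArg logHeight₁ h1
      rw [logHeight₁_pow, logHeight₁_pow, logHeight₁_pow] at h2
      exact mul_left_cancel₀ (show (m : ℝ) ≠ 0 by exact_mod_cast hm.ne') h2
    have hle : logHeight₁ (pw x (bx a - bx a0)) ≤ n * T * H := by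
      unfold pw
      refine (logHeight₁_prod_le _ _).trans ?_
      have h1 : ∀ l ∈ (Finset.univ : Finset (Fin n)),
          logHeight₁ (x l ^ (bx a - bx a0) l) ≤ T * H := by
        intro l _
        rw [logHeight₁_zpow]
        have h2 : (((bx a - bx a0) l).natAbs : ℝ) ≤ T := by
          have h3 := hbx a a0 l
          rw [Int.abs_eq_natAbs] at h3
          exact_mod_cast h3
        exact mul_le_mul h2 (hH l) (zero_le_logHeight₁ _) (by positivity)
      refine (Finset.sum_le_card_nsmul _ _ _ h1).trans ?_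
      rw [Finset.card_univ, Fintype.card_fin, nsmul_eq_mul, mul_assoc]
    have hlt : logHeight₁ (pw x c) < lam := by
      have h1 : (k : ℝ) * logHeight₁ (pw x c) < k * lam := by
        rw [← hh]
        exact lt_of_le_of_lt hle hkH
      exact lt_of_mul_lt_mul_left h1 (by positivity)
    have hct : c ∈ tors x hx := by
      by_contra hcon
      apply absurd (hlow (pw x c) (pw_ne x hx c) ?_) (not_le.2 hlt)
      intro m' hm' h1
      exact hcon ⟨m', hm', h1⟩
    rw [hd]
    exact (tors x hx).add_mem ((tors x hx).smul_mem _ hct) ⟨m, hm, hm1⟩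
  -- the torsion elements
  have hZ := hM (S.image fun a => pw x (bx a - bx a0)) (by
    intro g hg
    obtain ⟨a, ha, rfl⟩ := Finset.mem_image.1 hg
    exact htor a ha)
  have hlt : (S.image fun a => pw x (bx a - bx a0)).card < S.card := lt_of_le_of_lt hZ hy
  obtain ⟨a, ha, a', ha', hne, heq⟩ := Finset.exists_ne_map_eq_of_card_lt_of_maps_to hlt
    (f := fun a => pw x (bx a - bx a0)) (fun a ha => Finset.mem_image_of_mem _ ha)
  refine ⟨bx a - bx a', ?_, fun l => hbx a a' l, ?_⟩
  · rw [sub_ne_zero]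
    exact fun h => hne (hinj h)
  · have h1 : pw x (bx a - bx a') * pw x (bx a' - bx a0) = pw x (bx a - bx a0) := by
      rw [← pw_add x hx, sub_add_sub_cancel]
    rw [heq] at h1
    exact mul_right_cancel₀ (pw_ne x hx _) (h1.trans (one_mul _).symm)

end Pool.Agent.Y447.Z
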